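import Pool.Agent.Helper227.RD.Neg3

set_option autoImplicit false

/-! Binary values of strings and of sequences. -/

namespace Pool.Agent.H696R2.RD

open Encodable MeasureTheory Pool.Agent.Helper227
open scoped ENNReal
open Nat.Partrec (Code)

/-- The real number in `[0, 1]` with binary expansion `0.S(0)S(1)S(2)...`. -/
noncomputable def rbin (S : ℕ → Bool) : ℝ := ∑' i : ℕ, ((S i).toNat : ℝ) / 2 ^ (i + 1)

/-- integer value of a string -/
def bnum (σ : List Bool) : ℕ := σ.foldl (fun a b => 2 * a + b.toNat) 0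

@[simp] theorem bnum_nil : bnum [] = 0 := rfl

theorem bnum_append (σ : List Bool) (b : Bool) : bnum (σ ++ [b]) = 2 * bnum σ + b.toNat := by
  simp [bnum]

theorem primrec_bnum : Primrec bnum := by
  unfold bnum
  refine Primrec.list_foldl (h := fun (_ : List Bool) (x : ℕ × Bool) => 2 * x.1 + x.2.toNat)
    Primrec.id (Primrec.const 0) ?_
  exact Primrec.nat_add.comp (Primrec.nat_mul.comp (Primrec.const 2)
    (Primrec.fst.comp Primrec.snd))
    ((Primrec.dom_bool Bool.toNat).comp (Primrec.snd.comp Primrec.snd))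

theorem bnum_append_list (σ ρ : List Bool) : bnum (σ ++ ρ) = bnum σ * 2 ^ ρ.length + bnum ρ := by
  induction ρ using List.reverseRecOn with
  | nil => simp
  | append_singleton ρ b ih =>
    rw [← List.append_assoc, bnum_append, ih, bnum_append, List.length_append,
      List.length_singleton, pow_succ]
    ring

theorem bnum_lt (σ : List Bool) : bnum σ < 2 ^ σ.length := by
  induction σ using List.reverseRecOn with
  | nil => simp
  | append_singleton σ b ih =>
    rw [bnum_append, List.length_append, List.length_singleton, pow_succ]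
    have := Bool.toNat_le b
    omega

theorem bnum_inj : ∀ (n : ℕ) (σ ρ : List Bool), σ.length = n → ρ.length = n → bnum σ = bnum ρ →
    σ = ρ := by
  intro n
  induction n with
  | zero =>
    intro σ ρ h1 h2 _
    rw [List.length_eq_zero_iff.1 h1, List.length_eq_zero_iff.1 h2]
  | succ n ih =>
    intro σ ρ h1 h2 h
    rcases List.eq_nil_or_concat' σ with rfl | ⟨σ', b, rfl⟩
    · simp at h1
    rcases List.eq_nil_or_concat' ρ with rfl | ⟨ρ', b', rfl⟩
    · simp at h2
    rw [bnum_append, bnum_append] at h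
    simp only [List.length_append, List.length_singleton, Nat.add_right_cancel_iff] at h1 h2
    have hb : b = b' := by
      cases b <;> cases b' <;> simp at h ⊢ <;> omega
    subst hb
    rw [ih σ' ρ' h1 h2 (by omega)]

theorem exists_bnum : ∀ (k u : ℕ), u < 2 ^ k → ∃ σ : List Bool, σ.length = k ∧ bnum σ = u := by
  intro k
  induction k with
  | zero => intro u hu; exact ⟨[], rfl, by simp at hu; simp [hu]⟩
  | succ k ih =>
    intro u hu
    rw [pow_succ] at hu
    obtain ⟨σ, h1, h2⟩ := ih (u / 2) (by omega)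
    refine ⟨σ ++ [decide (u % 2 = 1)], by simp [h1], ?_⟩
    rw [bnum_append, h2]
    rcases Nat.mod_two_eq_zero_or_one u with h | h
    · simp [h]; omega
    · simp [h]; omega

/-- the value of a string as a binary fraction -/
noncomputable def bval (σ : List Bool) : ℝ := bnum σ / 2 ^ σ.length

theorem bval_append (σ : List Bool) (b : Bool) :
    bval (σ ++ [b]) = bval σ + (b.toNat : ℝ) / 2 ^ (σ.length + 1) := by
  simp only [bval, bnum_append, List.length_append, List.length_singleton]
  push_cast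
  field_simp
  ring

variable (S : ℕ → Bool)

theorem bval_pre (n : ℕ) : bval (pre S n) = ∑ i ∈ Finset.range n, ((S i).toNat : ℝ) / 2 ^ (i + 1) := by
  induction n with
  | zero => simp [pre, bval]
  | succ n ih => rw [pre_succ, bval_append, ih, Finset.sum_range_succ, length_pre]

theorem hasSum_half (n : ℕ) : HasSum (fun i : ℕ => (1 : ℝ) / 2 ^ (i + n + 1)) (1 / 2 ^ n) := by
  have h := (hasSum_geometric_of_lt_one (r := (1 / 2 : ℝ)) (by norm_num) (by norm_num)).mul_left
    (1 / 2 ^ (n + 1))
  have e1 : (1 : ℝ) / 2 ^ (n + 1) * (1 - 1 / 2)⁻¹ = 1 / 2 ^ n := by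
    rw [pow_succ]
    norm_num
    ring
  rw [e1] at h
  have e2 : (fun i : ℕ => (1 : ℝ) / 2 ^ (n + 1) * (1 / 2) ^ i) = fun i : ℕ => 1 / 2 ^ (i + n + 1) := by
    funext i
    rw [div_pow, one_pow, div_mul_div_comm, mul_one, ← pow_add]
    congr 2
    omega
  rwa [e2] at h

theorem summable_rbin : Summable fun i : ℕ => ((S i).toNat : ℝ) / 2 ^ (i + 1) := by
  refine Summable.of_nonneg_of_le (fun i => by positivity) (fun i => ?_) (hasSum_half 0).summable
  have : ((S i).toNat : ℝ) ≤ 1 := by exact_mod_cast Bool.toNat_le (S i)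
  simp only [add_zero]
  gcongr

theorem rbin_eq (n : ℕ) : rbin S = bval (pre S n) +
    ∑' i : ℕ, ((S (i + n)).toNat : ℝ) / 2 ^ (i + n + 1) := by
  rw [bval_pre]
  exact ((summable_rbin S).sum_add_tsum_nat_add n).symm

theorem rbin_lower (n : ℕ) : bval (pre S n) ≤ rbin S := by
  rw [rbin_eq S n]
  have : 0 ≤ ∑' i : ℕ, ((S (i + n)).toNat : ℝ) / 2 ^ (i + n + 1) := tsum_nonneg fun i => by positivity
  linarith

theorem rbin_upper (n : ℕ) : rbin S ≤ bval (pre S n) + 1 / 2 ^ n := by
  rw [rbin_eq S n]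
  gcongr
  rw [← (hasSum_half n).tsum_eq]
  refine ((summable_nat_add_iff n).2 (summable_rbin S)).tsum_le_tsum (fun i => ?_)
    (hasSum_half n).summable
  have : ((S (i + n)).toNat : ℝ) ≤ 1 := by exact_mod_cast Bool.toNat_le (S (i + n))
  gcongr

theorem bval_mono {n m : ℕ} (h : n ≤ m) : bval (pre S n) ≤ bval (pre S m) := by
  rw [bval_pre, bval_pre]
  exact Finset.sum_le_sum_of_subset_of_nonneg (Finset.range_subset_range.2 h)
    fun i _ _ => by positivity

theorem bval_anti {n m : ℕ} (h : n ≤ m) : bval (pre S m) + 1 / 2 ^ m ≤ bval (pre S n) + 1 / 2 ^ n := by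
  induction m, h using Nat.le_induction with
  | base => exact le_rfl
  | succ m _ ih =>
    refine le_trans ?_ ih
    rw [pre_succ, bval_append, length_pre]
    have h1 : ((S m).toNat : ℝ) ≤ 1 := by exact_mod_cast Bool.toNat_le (S m)
    have h2 : ((S m).toNat : ℝ) / 2 ^ (m + 1) ≤ 1 / 2 ^ (m + 1) := by gcongr
    have h3 : (1 : ℝ) / 2 ^ m = 1 / 2 ^ (m + 1) + 1 / 2 ^ (m + 1) := by
      rw [pow_succ]; field_simp; norm_num
    rw [h3]
    linarith

theorem rbin_lower_lt {n m : ℕ} (h : n ≤ m) (hm : S m = true) : bval (pre S n) < rbin S := by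
  have h1 := rbin_lower S (m + 1)
  rw [pre_succ, bval_append, length_pre, hm] at h1
  have h2 := bval_mono S h
  have h3 : (0 : ℝ) < ((true.toNat : ℕ) : ℝ) / 2 ^ (m + 1) := by simp
  linarith

theorem rbin_upper_lt {n m : ℕ} (h : n ≤ m) (hm : S m = false) :
    rbin S < bval (pre S n) + 1 / 2 ^ n := by
  have h1 := rbin_upper S (m + 1)
  rw [pre_succ, bval_append, length_pre, hm] at h1
  have h2 := bval_anti S h
  have h3 : (1 : ℝ) / 2 ^ m = 1 / 2 ^ (m + 1) + 1 / 2 ^ (m + 1) := by
    rw [pow_succ]; field_simp; norm_num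
  have h4 : (0 : ℝ) < 1 / 2 ^ (m + 1) := by positivity
  have h5 : (((false).toNat : ℕ) : ℝ) / 2 ^ (m + 1) = 0 := by simp
  rw [h5] at h1
  linarith

theorem rbin_nonneg : 0 ≤ rbin S := tsum_nonneg fun i => by positivity

end Pool.Agent.H696R2.RD
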