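import Pool.Agent.H696R2.RD.Bin

set_option autoImplicit false

/-! A sequence whose dimension is a right-c.e. real relative to the halting problem computes that
real with one jump. -/

namespace Pool.Agent.H696R2.RD

open Encodable MeasureTheory Pool.Agent.Helper227
open scoped ENNReal
open Nat.Partrec (Code)

section lower

variable (U : List Bool →. List Bool) (X : ℕ → Bool)

/-- some description beyond `n` violates the lower bound `a / b` -/
def Viol (n : ℕ) (a b : ℕ) : Prop :=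
  ∃ m τ, (n ≤ m ∧ τ.length * b ≤ a * m) ∧ pre X m ∈ U τ

/-- `a / b` is eventually a lower bound for the complexity quotients -/
def LC (a b : ℕ) : Prop := ∃ n, ¬ Viol U X n a b

variable {U X}

theorem si_viol {O : ℕ → Bool} (hU : RecursiveIn {chi O} U) (hO : TLe O X) :
    SI X fun x : ℕ × ℕ × ℕ => Viol U X x.1 x.2.1 x.2.2 := by
  have h1 := (SI.iff_recIn.1 hU).trans hO
  have h2 : SI X fun x : ℕ × ℕ × ℕ => ∃ ρ τ : List Bool,
      (x.1 ≤ ρ.length ∧ τ.length * x.2.2 ≤ x.2.1 * ρ.length) ∧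
      ((∀ i < ρ.length, X i = ρ.getD i false) ∧ ρ ∈ U τ) := by
    refine SI.ex (SI.ex (SI.and (SI.of_prim (PrimrecPred.and ?_ ?_)) (SI.and ?_ ?_)))
    · exact Primrec.nat_le.comp (Primrec.fst.comp (Primrec.fst.comp Primrec.fst))
        (Primrec.list_length.comp (Primrec.snd.comp Primrec.fst))
    · refine Primrec.nat_le.comp ?_ ?_
      · exact Primrec.nat_mul.comp (Primrec.list_length.comp Primrec.snd)
          (Primrec.snd.comp (Primrec.snd.comp (Primrec.fst.comp Primrec.fst)))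
      · exact Primrec.nat_mul.comp (Primrec.fst.comp (Primrec.snd.comp
          (Primrec.fst.comp Primrec.fst)))
          (Primrec.list_length.comp (Primrec.snd.comp Primrec.fst))
    · refine SI.all_lt (α := ((ℕ × ℕ × ℕ) × List Bool) × List Bool)
        (p := fun x i => X i = x.1.2.getD i false) (f := fun x => x.1.2.length) ?_
        (Primrec.list_length.comp (Primrec.snd.comp Primrec.fst))
      exact SI.query.comp (f := fun z : (((ℕ × ℕ × ℕ) × List Bool) × List Bool) × ℕ =>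
        (z.2, z.1.1.2.getD z.2 false)) (Primrec.snd.pair ((Primrec.list_getD false).comp
          (Primrec.snd.comp (Primrec.fst.comp Primrec.fst)) Primrec.snd))
    · exact h1.comp (f := fun z : ((ℕ × ℕ × ℕ) × List Bool) × List Bool => (z.2, z.1.2))
        (Primrec.snd.pair (Primrec.snd.comp Primrec.fst))
  refine h2.of_eq fun x => ?_
  constructor
  · rintro ⟨ρ, τ, ⟨h3, h4⟩, h5, h6⟩
    have hρ : pre X ρ.length = ρ := by
      refine List.ext_getElem (by simp) fun i h7 h8 => ?_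
      rw [getElem_pre, h5 i h8]
      simp [h8]
    refine ⟨ρ.length, τ, ⟨h3, h4⟩, by rwa [hρ]⟩
  · rintro ⟨m, τ, ⟨h3, h4⟩, h5⟩
    refine ⟨pre X m, τ, ⟨by simpa using h3, by simpa using h4⟩, fun i hi => ?_, h5⟩
    exact (pre_getD X _ _ _ (by simpa using hi)).symm

theorem si_LC {O : ℕ → Bool} (hU : RecursiveIn {chi O} U) (hO : TLe O X) :
    SI (jump X) fun x : ℕ × ℕ => LC U X x.1 x.2 := by
  have h1 := (si_viol hU hO).decide_jump.2
  refine SI.ex (p := fun (x : ℕ × ℕ) n => ¬ Viol U X n x.1 x.2) ?_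
  exact h1.comp (f := fun z : (ℕ × ℕ) × ℕ => (z.2, z.1)) (Primrec.snd.pair Primrec.fst)

theorem LC_of_lt {s : ℝ} (hd : dimU U X = ENNReal.ofReal s) {a b : ℕ} (hb : 0 < b)
    (h : (a : ℝ) / b < s) : LC U X a b := by
  have hs : 0 < s := lt_of_le_of_lt (by positivity) h
  have h1 : ENNReal.ofReal ((a : ℝ) / b) < dimU U X := by
    rw [hd]
    exact (ENNReal.ofReal_lt_ofReal_iff hs).2 h
  have h2 := Filter.eventually_lt_of_lt_liminf h1
  rw [Filter.eventually_atTop] at h2
  obtain ⟨N, hN⟩ := h2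
  refine ⟨max N 1, ?_⟩
  rintro ⟨m, τ, ⟨h3, h4⟩, h5⟩
  have h6 := hN m ((le_max_left _ _).trans h3)
  have hm : 1 ≤ m := (le_max_right _ _).trans h3
  have h7 : KU U (pre X m) ≤ τ.length := Nat.sInf_le ⟨τ, rfl, h5⟩
  have h8 : ((KU U (pre X m) : ℕ) : ℝ≥0∞) / m ≤ ENNReal.ofReal ((a : ℝ) / b) := by
    have hm' : (0 : ℝ) < m := by exact_mod_cast hm
    have hb' : (0 : ℝ) < b := by exact_mod_cast hb
    rw [← ENNReal.ofReal_natCast, ← ENNReal.ofReal_natCast, ← ENNReal.ofReal_div_of_pos hm']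
    refine ENNReal.ofReal_le_ofReal ?_
    rw [div_le_div_iff₀ hm' hb']
    have h9 : ((KU U (pre X m) : ℕ) : ℝ) * b ≤ (τ.length : ℝ) * b := by
      gcongr
    refine h9.trans ?_
    exact_mod_cast h4
  exact absurd h6 (not_lt.2 h8)

theorem le_of_LC {A : ℕ → Bool} (hU : IsUniversalIn A U) {s : ℝ} (hs : 0 ≤ s)
    (hd : dimU U X = ENNReal.ofReal s) {a b : ℕ} (hb : 0 < b) (h : LC U X a b) :
    (a : ℝ) / b ≤ s := by
  obtain ⟨N, hN⟩ := h
  have h1 : ENNReal.ofReal ((a : ℝ) / b) ≤ dimU U X := by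
    refine Filter.le_liminf_of_le (by isBoundedDefault) ?_
    filter_upwards [Filter.eventually_ge_atTop (max N 1)] with m hm
    have hm1 : 1 ≤ m := (le_max_right _ _).trans hm
    have hm' : (0 : ℝ) < m := by exact_mod_cast hm1
    have hb' : (0 : ℝ) < b := by exact_mod_cast hb
    obtain ⟨τ, h3, h4⟩ := hU.exists_min (pre X m)
    have h5 : ¬ (τ.length * b ≤ a * m) := fun h6 =>
      hN ⟨m, τ, ⟨(le_max_left _ _).trans hm, h6⟩, h4⟩
    change _ ≤ ((KU U (pre X m) : ℕ) : ℝ≥0∞) / m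
    rw [← ENNReal.ofReal_natCast, ← ENNReal.ofReal_natCast, ← ENNReal.ofReal_div_of_pos hm']
    refine ENNReal.ofReal_le_ofReal ?_
    rw [div_le_div_iff₀ hb' hm', ← h3]
    push Not at h5
    exact_mod_cast h5.le
  rw [hd] at h1
  exact (ENNReal.ofReal_le_ofReal_iff hs).1 h1

end lower

/-- Eventually constant sequences are computable. -/
theorem tLe_of_const {S : ℕ → Bool} {N : ℕ} {b : Bool} (h : ∀ m, N ≤ m → S m = b)
    (B : ℕ → Bool) : TLe S B := by
  rw [tLe_iff_SI]
  have h1 : SI B fun x : ℕ × Bool => (x.1 < N ∧ (pre S N).getD x.1 false = x.2) ∨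
      (N ≤ x.1 ∧ b = x.2) := by
    refine SI.of_prim (PrimrecPred.or (PrimrecPred.and ?_ ?_) (PrimrecPred.and ?_ ?_))
    · exact Primrec.nat_lt.comp Primrec.fst (Primrec.const N)
    · exact Primrec.eq.comp ((Primrec.list_getD false).comp (Primrec.const _) Primrec.fst) Primrec.snd
    · exact Primrec.nat_le.comp (Primrec.const N) Primrec.fst
    · exact Primrec.eq.comp (Primrec.const b) Primrec.snd
  refine h1.of_eq fun x => ?_
  rcases Nat.lt_or_ge x.1 N with h2 | h2
  · rw [pre_getD _ _ _ _ h2]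
    constructor
    · rintro (⟨_, h3⟩ | ⟨h3, _⟩)
      · exact h3
      · omega
    · exact fun h3 => Or.inl ⟨h2, h3⟩
  · rw [h _ h2]
    constructor
    · rintro (⟨h3, _⟩ | ⟨_, h3⟩)
      · omega
      · exact h3
    · exact fun h3 => Or.inr ⟨h2, h3⟩

/-- The upper cut of the real number with binary expansion `S`: all codes of pairs `(a, b)` with
`0.S(0)S(1)S(2)... < a / (b + 1)`. -/
def upperCut (S : ℕ → Bool) : Set ℕ :=
  {m | rbin S < (m.unpair.1 : ℝ) / (m.unpair.2 + 1)}

theorem main_cut {A O : ℕ → Bool} {U : List Bool →. List Bool} {S X : ℕ → Bool}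
    (hU : IsUniversalIn A U) (hA : TLe A X) (hO : TLe O (jump X)) (hS : CEIn O (upperCut S))
    (hd : dimU U X = ENNReal.ofReal (rbin S)) : TLe S (jump X) := by
  -- eventually constant sequences
  by_cases hc : ∃ N b, ∀ m, N ≤ m → S m = b
  · obtain ⟨N, b, h⟩ := hc
    exact tLe_of_const h _
  push Not at hc
  have ht : ∀ n, ∃ m ≥ n, S m = true := by
    intro n
    obtain ⟨m, hm, h⟩ := hc n false
    exact ⟨m, hm, by simpa using h⟩
  have hf : ∀ n, ∃ m ≥ n, S m = false := by
    intro n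
    obtain ⟨m, hm, h⟩ := hc n true
    exact ⟨m, hm, by simpa using h⟩
  have h1 := si_LC (X := X) hU.1.1 hA
  have h2 : SI (jump X) fun m : ℕ => m ∈ upperCut S := (SI.iff_ceIn.1 hS).trans hO
  rw [tLe_iff_SI]
  have e1 : Primrec fun z : (ℕ × Bool) × List Bool => bnum z.2 := primrec_bnum.comp Primrec.snd
  have e2 : Primrec fun z : (ℕ × Bool) × List Bool => 2 ^ z.2.length :=
    primrec_pow.comp (Primrec.const 2) (Primrec.list_length.comp Primrec.snd)
  have h3 : SI (jump X) fun x : ℕ × Bool => ∃ ρ : List Bool,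
      (ρ.length = x.1 + 1 ∧ ρ.getD x.1 false = x.2) ∧ (LC U X (bnum ρ) (2 ^ ρ.length) ∧
        Nat.pair (bnum ρ + 1) (2 ^ ρ.length - 1) ∈ upperCut S) := by
    refine SI.ex (SI.and (SI.of_prim (PrimrecPred.and ?_ ?_)) (SI.and ?_ ?_))
    · exact Primrec.eq.comp (Primrec.list_length.comp Primrec.snd)
        (Primrec.succ.comp (Primrec.fst.comp Primrec.fst))
    · exact Primrec.eq.comp ((Primrec.list_getD false).comp Primrec.snd (Primrec.fst.comp Primrec.fst))
        (Primrec.snd.comp Primrec.fst)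
    · exact h1.comp (f := fun z : (ℕ × Bool) × List Bool => (bnum z.2, 2 ^ z.2.length)) (e1.pair e2)
    · exact h2.comp (f := fun z : (ℕ × Bool) × List Bool =>
        Nat.pair (bnum z.2 + 1) (2 ^ z.2.length - 1))
        (Primrec₂.natPair.comp (Primrec.succ.comp e1) (Primrec.nat_sub.comp e2 (Primrec.const 1)))
  have hcut : ∀ ρ : List Bool, Nat.pair (bnum ρ + 1) (2 ^ ρ.length - 1) ∈ upperCut S ↔
      rbin S < bval ρ + 1 / 2 ^ ρ.length := by
    intro ρ
    have hp : 1 ≤ 2 ^ ρ.length := Nat.one_le_two_pow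
    simp only [upperCut, Set.mem_ofPred_eq, Nat.unpair_pair]
    rw [Nat.cast_sub hp]
    push_cast
    rw [bval, sub_add_cancel, add_div]
  refine h3.of_eq fun x => ?_
  constructor
  · rintro ⟨ρ, ⟨h5, h6⟩, h7, h8⟩
    rw [hcut] at h8
    have h9 := le_of_LC hU (rbin_nonneg S) hd (by positivity) h7
    push_cast at h9
    change bval ρ ≤ rbin S at h9
    obtain ⟨m, hm, hmf⟩ := hf (x.1 + 1)
    have h10 := rbin_upper_lt S hm hmf
    have h11 := rbin_lower S (x.1 + 1)
    have h12 : ρ = pre S (x.1 + 1) := by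
      refine bnum_inj (x.1 + 1) _ _ h5 (by simp) ?_
      rw [h5] at h8
      simp only [bval, h5, length_pre] at h8 h9 h10 h11
      have hp : (0 : ℝ) < 2 ^ (x.1 + 1) := by positivity
      have h13 : ((bnum ρ : ℕ) : ℝ) < bnum (pre S (x.1 + 1)) + 1 := by
        have := h9.trans_lt h10
        rw [← add_div] at this
        exact (div_lt_div_iff_of_pos_right hp).1 this
      have h14 : ((bnum (pre S (x.1 + 1)) : ℕ) : ℝ) < bnum ρ + 1 := by
        have := h11.trans_lt h8
        rw [← add_div] at this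
        exact (div_lt_div_iff_of_pos_right hp).1 this
      have h15 : bnum ρ < bnum (pre S (x.1 + 1)) + 1 := by exact_mod_cast h13
      have h16 : bnum (pre S (x.1 + 1)) < bnum ρ + 1 := by exact_mod_cast h14
      omega
    rw [← h6, h12, pre_getD _ _ _ _ (by omega)]
  · intro h5
    refine ⟨pre S (x.1 + 1), ⟨by simp, ?_⟩, ?_, ?_⟩
    · rw [pre_getD _ _ _ _ (by omega), h5]
    · obtain ⟨m, hm, hmt⟩ := ht (x.1 + 1)
      refine LC_of_lt hd (by positivity) ?_
      push_cast
      exact rbin_lower_lt S hm hmt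
    · obtain ⟨m, hm, hmf⟩ := hf (x.1 + 1)
      rw [hcut, length_pre]
      exact rbin_upper_lt S hm hmf

end Pool.Agent.H696R2.RD
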