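import Pool.Agent.H696R2.RD.Cut

set_option autoImplicit false

/-! Machine independence of the dimension; random reals with a c.e. upper cut. -/

namespace Pool.Agent.H696R2.RD

open Encodable MeasureTheory Pool.Agent.Helper227
open scoped ENNReal Topology
open Nat.Partrec (Code)
open Filter (Tendsto atTop)

theorem KU_le_add {A : ℕ → Bool} {U V : List Bool →. List Bool} (hU : IsUniversalIn A U)
    (hV : IsUniversalIn A V) : ∃ c : ℕ, ∀ y, KU U y ≤ KU V y + c := by
  obtain ⟨c, hc⟩ := hU.2 V hV.1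
  refine ⟨c, fun y => ?_⟩
  obtain ⟨τ, h1, h2⟩ := hV.exists_min y
  obtain ⟨τ', h3, h4⟩ := hc τ y h2
  have h5 : KU U y ≤ τ'.length := Nat.sInf_le ⟨τ', rfl, h4⟩
  omega

theorem tendsto_const_div (c : ℕ) : Tendsto (fun n : ℕ => (c : ℝ≥0∞) / n) atTop (𝓝 0) := by
  have h := ENNReal.Tendsto.const_mul (a := (c : ℝ≥0∞)) ENNReal.tendsto_inv_nat_nhds_zero
    (Or.inr (ENNReal.natCast_ne_top c))
  rw [mul_zero] at h
  exact h

theorem dimU_le_of {U V : List Bool →. List Bool} {X : ℕ → Bool} {c : ℕ}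
    (h : ∀ y, KU U y ≤ KU V y + c) : dimU U X ≤ dimU V X := by
  unfold dimU
  rw [← ENNReal.liminf_add_of_right_tendsto_zero (tendsto_const_div c)
    (fun n : ℕ => (KU V ((List.range n).map X) : ℝ≥0∞) / n)]
  refine Filter.liminf_le_liminf (Filter.Eventually.of_forall fun n => ?_)
  simp only [Pi.add_apply]
  rw [← ENNReal.add_div]
  gcongr
  exact_mod_cast h _

theorem dimU_eq {A : ℕ → Bool} {U V : List Bool →. List Bool} (hU : IsUniversalIn A U)
    (hV : IsUniversalIn A V) (X : ℕ → Bool) : dimU U X = dimU V X := by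
  obtain ⟨c, hc⟩ := KU_le_add hU hV
  obtain ⟨d, hd⟩ := KU_le_add hV hU
  exact le_antisymm (dimU_le_of hc) (dimU_le_of hd)

theorem one_le_dimU {V : List Bool →. List Bool} {X : ℕ → Bool} {c : ℕ}
    (h : ∀ n, n ≤ KU V ((List.range n).map X) + c) : 1 ≤ dimU V X := by
  unfold dimU
  rw [← ENNReal.liminf_add_of_right_tendsto_zero (tendsto_const_div c)]
  refine Filter.le_liminf_of_le (by isBoundedDefault) ?_
  filter_upwards [Filter.eventually_ge_atTop 1] with n hn
  simp only [Pi.add_apply]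
  rw [← ENNReal.add_div, ENNReal.le_div_iff_mul_le (Or.inl (by simp; omega)) (Or.inl (by simp)),
    one_mul]
  exact_mod_cast h n

section path

variable {V : List Bool →. List Bool}

theorem ext_nil (hV : ∀ σ τ : List Bool, (V σ).Dom → (V τ).Dom → σ <+: τ → σ = τ) :
    Neg.Ext V [] := by
  obtain ⟨X, hX⟩ := Neg.exists_good hV
  exact ⟨X, by rw [mem_cyl_iff]; rfl, hX⟩

/-- the path `YY` is the rightmost one -/
theorem rightmost : ∀ (n : ℕ) (ρ : List Bool), ρ.length = n → Neg.Ext V ρ →
    bnum ρ ≤ bnum (pre (Neg.YY V) n) := by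
  intro n
  induction n with
  | zero =>
    intro ρ h _
    rw [List.length_eq_zero_iff.1 h]
    simp
  | succ n ih =>
    intro ρ h hρ
    rcases List.eq_nil_or_concat' ρ with rfl | ⟨ρ', b, rfl⟩
    · simp at h
    have hl : ρ'.length = n := by simpa using h
    have hρ' : Neg.Ext V ρ' := by
      obtain ⟨X, hX, h2⟩ := hρ
      exact ⟨X, cyl_subset (List.prefix_append _ _) hX, h2⟩
    have h1 := ih ρ' hl hρ'
    rw [pre_succ, bnum_append, bnum_append]
    have hb := Bool.toNat_le b
    rcases Nat.lt_or_ge (bnum ρ') (bnum (pre (Neg.YY V) n)) with h2 | h2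
    · omega
    · have h3 : ρ' = pre (Neg.YY V) n := bnum_inj n _ _ hl (by simp) (by omega)
      subst h3
      cases b
      · simp
      · rw [Neg.YY_true.2 hρ]

end path

/-- a finite string followed by an infinite sequence -/
def app (σ : List Bool) (Y : ℕ → Bool) : ℕ → Bool :=
  fun n => if n < σ.length then σ.getD n false else Y (n - σ.length)

theorem pre_app (σ : List Bool) (Y : ℕ → Bool) (n : ℕ) :
    pre (app σ Y) (σ.length + n) = σ ++ pre Y n := by
  refine List.ext_getElem (by simp) fun i h1 h2 => ?_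
  rw [getElem_pre]
  unfold app
  split_ifs with h
  · rw [List.getElem_append_left h, List.getD_eq_getElem _ _ h]
  · rw [List.getElem_append_right (by omega), getElem_pre]

theorem pre_app_le (σ : List Bool) (Y : ℕ → Bool) : pre (app σ Y) σ.length = σ := by
  have := pre_app σ Y 0
  simpa [pre] using this

theorem si_upperCut {O : ℕ → Bool} {V : List Bool →. List Bool} (hV : IsMachineIn O V)
    (σ : List Bool) : SI O fun m : ℕ => m ∈ upperCut (app σ (Neg.YY V)) := by
  have h1 := Neg.si_not_ext hV.1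
  have h0 := ext_nil hV.2
  have h2 : SI O fun m : ℕ => ∃ n : ℕ, ∀ ρ ∈ allStr n, ¬ Neg.Ext V ρ ∨
      (bnum (σ ++ ρ) + 1) * (m.unpair.2 + 1) < m.unpair.1 * 2 ^ (σ ++ ρ).length := by
    refine SI.ex (SI.all_mem (α := ℕ × ℕ) (f := fun x => allStr x.2)
      (p := fun x ρ => ¬ Neg.Ext V ρ ∨
        (bnum (σ ++ ρ) + 1) * (x.1.unpair.2 + 1) < x.1.unpair.1 * 2 ^ (σ ++ ρ).length) ?_
      (primrec_allStr.comp Primrec.snd))
    have e : Primrec fun z : (ℕ × ℕ) × List Bool => σ ++ z.2 :=
      Primrec.list_append.comp (Primrec.const σ) Primrec.snd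
    have eu : Primrec fun z : (ℕ × ℕ) × List Bool => z.1.1.unpair :=
      Primrec.unpair.comp (Primrec.fst.comp Primrec.fst)
    refine SI.or (h1.comp Primrec.snd) (SI.of_prim ?_)
    refine Primrec.nat_lt.comp (Primrec.nat_mul.comp (Primrec.succ.comp (primrec_bnum.comp e))
      (Primrec.succ.comp (Primrec.snd.comp eu))) (Primrec.nat_mul.comp (Primrec.fst.comp eu)
      (primrec_pow.comp (Primrec.const 2) (Primrec.list_length.comp e)))
  refine h2.of_eq fun m => ?_
  simp only [upperCut, Set.mem_ofPred_eq]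
  set a := m.unpair.1
  set b := m.unpair.2
  have hb : (0 : ℝ) < (b : ℝ) + 1 := by positivity
  have key : ∀ ρ : List Bool, (bnum (σ ++ ρ) + 1) * (b + 1) < a * 2 ^ (σ ++ ρ).length ↔
      bval (σ ++ ρ) + 1 / 2 ^ (σ ++ ρ).length < (a : ℝ) / (b + 1) := by
    intro ρ
    rw [bval, ← add_div, div_lt_div_iff₀ (by positivity) hb]
    exact_mod_cast Iff.rfl
  constructor
  · rintro ⟨n, hn⟩
    have h3 := hn (pre (Neg.YY V) n) (mem_allStr.2 (by simp))
    rcases h3 with h3 | h3
    · exact absurd (Neg.ext_pre h0 n) h3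
    · rw [key, ← pre_app] at h3
      have h4 := rbin_upper (app σ (Neg.YY V)) (σ.length + n)
      rw [length_pre] at h3
      linarith
  · intro h
    obtain ⟨n, hn⟩ := exists_pow_lt_of_lt_one (sub_pos.2 h) (show (1 / 2 : ℝ) < 1 by norm_num)
    refine ⟨n, fun ρ hρ => ?_⟩
    by_cases he : Neg.Ext V ρ
    · right
      rw [mem_allStr] at hρ
      rw [key]
      have h5 := rightmost n ρ hρ he
      have h6 := rbin_lower (app σ (Neg.YY V)) (σ.length + n)
      rw [pre_app] at h6
      have h7 : bval (σ ++ ρ) ≤ bval (σ ++ pre (Neg.YY V) n) := by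
        unfold bval
        rw [List.length_append, List.length_append, hρ, length_pre]
        gcongr
        rw [bnum_append_list, bnum_append_list, hρ, length_pre]
        omega
      have h8 : (1 : ℝ) / 2 ^ (σ ++ ρ).length ≤ (1 / 2) ^ n := by
        rw [List.length_append, hρ, div_pow, one_pow]
        refine one_div_le_one_div_of_le (by positivity) ?_
        exact pow_le_pow_right₀ (by norm_num) (by omega)
      linarith
    · exact Or.inl he

/-- randomness is preserved when a finite string is put in front -/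
theorem random_app {A : ℕ → Bool} {V V' : List Bool →. List Bool} (hV : IsUniversalIn A V)
    (hV' : IsUniversalIn A V') {Y : ℕ → Bool} (h : ∀ n, n ≤ KU V (pre Y n)) (σ : List Bool) :
    ∃ c : ℕ, ∀ n, n ≤ KU V' (pre (app σ Y) n) + c := by
  let M : List Bool →. List Bool := fun τ => (V' τ).map (List.drop σ.length)
  have hM : IsMachineIn A M := by
    refine ⟨?_, ?_⟩
    · rw [SI.iff_recIn]
      have h1 := SI.iff_recIn.1 hV'.1.1
      have h2 : SI A fun x : List Bool × List Bool => ∃ z : List Bool,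
          z ∈ V' x.1 ∧ z.drop σ.length = x.2 := by
        refine SI.ex (SI.and ?_ (SI.of_prim ?_))
        · exact h1.comp (f := fun z : (List Bool × List Bool) × List Bool => (z.1.1, z.2))
            ((Primrec.fst.comp Primrec.fst).pair Primrec.snd)
        · have hdrop : Primrec fun z : List Bool => z.drop σ.length := by
            have : ∀ k : ℕ, Primrec fun z : List Bool => z.drop k := by
              intro k
              induction k with
              | zero => exact Primrec.id.of_eq fun z => by simp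
              | succ k ih =>
                refine (ih.comp Primrec.list_tail).of_eq fun z => ?_
                cases z <;> simp
            exact this _
          exact Primrec.eq.comp (hdrop.comp Primrec.snd) (Primrec.snd.comp Primrec.fst)
      exact h2.of_eq fun x => by simp [M, Part.mem_map_iff]
    · intro ρ τ hρ hτ hp
      exact hV'.1.2 ρ τ hρ hτ hp
  obtain ⟨c, hc⟩ := hV.2 M hM
  refine ⟨c + σ.length, fun n => ?_⟩
  rcases Nat.lt_or_ge n σ.length with h1 | h1
  · omega
  obtain ⟨k, rfl⟩ := Nat.exists_eq_add_of_le h1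
  obtain ⟨τ, h2, h3⟩ := hV'.exists_min (pre (app σ Y) (σ.length + k))
  have h4 : pre Y k ∈ M τ := by
    simp only [M, Part.mem_map_iff]
    exact ⟨_, h3, by rw [pre_app, List.drop_left]⟩
  obtain ⟨τ', h5, h6⟩ := hc _ _ h4
  have h7 : KU V (pre Y k) ≤ τ'.length := Nat.sInf_le ⟨τ', rfl, h6⟩
  have h8 := h k
  omega

theorem exists_str {a b : ℝ} (ha : 0 ≤ a) (hab : a < b) (hb : b ≤ 1) :
    ∃ σ : List Bool, a < bval σ ∧ bval σ + 1 / 2 ^ σ.length < b := by
  obtain ⟨k, hk⟩ := exists_pow_lt_of_lt_one (show 0 < (b - a) / 2 by linarith)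
    (show (1 / 2 : ℝ) < 1 by norm_num)
  have hp : (0 : ℝ) < 2 ^ k := by positivity
  rw [div_pow, one_pow, div_lt_iff₀ hp] at hk
  -- `u = ⌊a 2^k⌋ + 1`
  have h1 : (⌊a * 2 ^ k⌋₊ : ℝ) ≤ a * 2 ^ k := Nat.floor_le (by positivity)
  have h2 : a * 2 ^ k < ⌊a * 2 ^ k⌋₊ + 1 := Nat.lt_floor_add_one _
  have h3 : ((⌊a * 2 ^ k⌋₊ + 1 : ℕ) : ℝ) + 1 < b * 2 ^ k := by
    push_cast
    nlinarith
  have h4 : ⌊a * 2 ^ k⌋₊ + 1 < 2 ^ k := by
    have : ((⌊a * 2 ^ k⌋₊ + 1 : ℕ) : ℝ) < 2 ^ k := by nlinarith
    exact_mod_cast this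
  obtain ⟨σ, h5, h6⟩ := exists_bnum k _ h4
  refine ⟨σ, ?_, ?_⟩
  · rw [bval, h5, h6, lt_div_iff₀ hp]
    exact_mod_cast h2
  · rw [bval, h5, h6, ← add_div, div_lt_iff₀ hp]
    exact h3

end Pool.Agent.H696R2.RD
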